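import Pool.Agent.W278.EM.Stms

set_option autoImplicit false
open MeasureTheory Finset
open scoped ComplexConjugate

namespace Pool.Agent.W698.EM

open Pool.Agent.Helper873.OneVar Pool.Agent.Helper873.Product Pool.Agent.Helper873.Monomial
  Pool.Agent.Helper873.Alg Pool.Agent.Helper873.NT Pool.Agent.W278.EM

/-- Parseval for polynomials on the torus. -/
lemma parseval (c : ℕ →₀ ℂ) :
    ∫ z, ‖poly c (zz z)‖ ^ 2 ∂tor = ∑ m ∈ c.support, ‖c m‖ ^ 2 := by
  have h1 : ∀ z : TT, ((‖poly c (zz z)‖ ^ 2 : ℝ) : ℂ) =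
      ∑ m ∈ c.support, ∑ n ∈ c.support, (c m * conj (c n)) * (chi m z * conj (chi n z)) := by
    intro z
    have : ((‖poly c (zz z)‖ ^ 2 : ℝ) : ℂ) = poly c (zz z) * conj (poly c (zz z)) := by
      rw [Complex.mul_conj, Complex.normSq_eq_norm_sq]
    rw [this]
    unfold poly Finsupp.sum chi zz
    rw [map_sum, Finset.sum_mul_sum]
    refine Finset.sum_congr rfl fun m _ => Finset.sum_congr rfl fun n _ => ?_
    rw [map_mul]; ring
  have h2 : ((∫ z, ‖poly c (zz z)‖ ^ 2 ∂tor : ℝ) : ℂ) = ((∑ m ∈ c.support, ‖c m‖ ^ 2 : ℝ) : ℂ) := by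
    rw [← integral_complex_ofReal]
    simp_rw [h1]
    have hint : ∀ m n : ℕ, Integrable (fun z : TT => (c m * conj (c n)) *
        (chi m z * conj (chi n z))) tor := by
      intro m n
      exact (integrable_tor ((continuous_chi m).mul
        (Complex.continuous_conj.comp (continuous_chi n)))).const_mul _
    rw [integral_finsetSum _ (fun m _ => integrable_finsetSum _ (fun n _ => hint m n))]
    push_cast
    refine Finset.sum_congr rfl fun m hm => ?_
    rw [integral_finsetSum _ (fun n _ => hint m n)]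
    rw [Finset.sum_eq_single_of_mem m hm]
    · rw [integral_const_mul]
      have : ∀ z : TT, chi m z * conj (chi m z) = 1 := by
        intro z
        rw [Complex.mul_conj, Complex.normSq_eq_norm_sq, norm_chi]
        simp
      simp_rw [this]
      simp [Complex.mul_conj, Complex.normSq_eq_norm_sq]
    · intro n _ hn
      rw [integral_const_mul, orth m n (Ne.symm hn), mul_zero]
  exact_mod_cast h2

/-- the kernel of the Schur test -/
noncomputable def KK (m n : ℕ) : ℝ :=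
  Real.exp (-(Real.log (m + 1) - Real.log (n + 1)) ^ 2 / 4) /
    (Real.sqrt (m + 1) * Real.sqrt (n + 1))

lemma KK_symm (m n : ℕ) : KK m n = KK n m := by
  unfold KK
  rw [mul_comm (Real.sqrt (m + 1))]
  congr 3
  ring

lemma gauss_le (u : ℝ) : Real.exp (-u ^ 2 / 4) ≤ Real.exp 1 * Real.exp (-|u|) := by
  rw [← Real.exp_add]
  apply Real.exp_le_exp.2
  have h : |u| ^ 2 = u ^ 2 := sq_abs u
  nlinarith [sq_nonneg (|u| / 2 - 1)]

lemma KK_le (m n : ℕ) (h : n ≤ m) :
    KK m n ≤ Real.exp 1 * (((n : ℝ) + 1) / (m + 1)) /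
      (Real.sqrt (m + 1) * Real.sqrt (n + 1)) := by
  unfold KK
  have hm : (0 : ℝ) < m + 1 := by positivity
  have hn : (0 : ℝ) < n + 1 := by positivity
  have hmn : ((n : ℝ) + 1) ≤ m + 1 := by
    have : (n : ℝ) ≤ m := by exact_mod_cast h
    linarith
  apply div_le_div_of_nonneg_right _ (by positivity)
  refine (gauss_le _).trans ?_
  have h1 : 0 ≤ Real.log (m + 1) - Real.log (n + 1) := by
    have := Real.log_le_log hn hmn
    linarith
  rw [abs_of_nonneg h1]
  have h2 : Real.exp (-(Real.log (m + 1) - Real.log (n + 1))) = ((n : ℝ) + 1) / (m + 1) := by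
    rw [neg_sub, Real.exp_sub, Real.exp_log hn, Real.exp_log hm]
  rw [h2]

/-- lower part: `∑_{n ≤ m} K(m,n) ≤ e` -/
lemma row_low (m : ℕ) : ∑ n ∈ range (m + 1), KK m n ≤ Real.exp 1 := by
  have hm : (0 : ℝ) < m + 1 := by positivity
  have h1 : ∀ n ∈ range (m + 1), KK m n ≤ Real.exp 1 / (m + 1) := by
    intro n hn
    have hnm : n ≤ m := by rw [mem_range] at hn; omega
    have hn0 : (0 : ℝ) < n + 1 := by positivity
    refine (KK_le m n hnm).trans ?_
    have hs : Real.sqrt ((n : ℝ) + 1) ≤ Real.sqrt ((m : ℝ) + 1) := by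
      apply Real.sqrt_le_sqrt
      have : (n : ℝ) ≤ m := by exact_mod_cast hnm
      linarith
    have hsn : 0 < Real.sqrt ((n : ℝ) + 1) := Real.sqrt_pos.2 hn0
    have hsm : 0 < Real.sqrt ((m : ℝ) + 1) := Real.sqrt_pos.2 hm
    have e1 : ((n : ℝ) + 1) = Real.sqrt ((n : ℝ) + 1) * Real.sqrt ((n : ℝ) + 1) :=
      (Real.mul_self_sqrt hn0.le).symm
    rw [div_le_div_iff₀ (by positivity) hm]
    have e2 : Real.exp 1 * (((n : ℝ) + 1) / (m + 1)) * (m + 1) = Real.exp 1 * ((n : ℝ) + 1) := by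
      field_simp
    rw [e2]
    have e3 : ((n : ℝ) + 1) ≤ Real.sqrt ((m : ℝ) + 1) * Real.sqrt ((n : ℝ) + 1) := by
      nlinarith
    exact mul_le_mul_of_nonneg_left e3 (Real.exp_pos 1).le
  refine (Finset.sum_le_sum h1).trans ?_
  rw [Finset.sum_const, card_range, nsmul_eq_mul]
  push_cast
  apply le_of_eq
  field_simp

/-- telescoping bound for `n^{-3/2}` -/
lemma tele (n : ℕ) :
    1 / (((n : ℝ) + 2) * Real.sqrt ((n : ℝ) + 2)) ≤
      2 * (1 / Real.sqrt ((n : ℝ) + 1) - 1 / Real.sqrt ((n : ℝ) + 2)) := by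
  have h1 : (0 : ℝ) < n + 1 := by positivity
  have h2 : (0 : ℝ) < n + 2 := by positivity
  set a := Real.sqrt ((n : ℝ) + 1) with ha
  set b := Real.sqrt ((n : ℝ) + 2) with hb
  have ha0 : 0 < a := Real.sqrt_pos.2 h1
  have hb0 : 0 < b := Real.sqrt_pos.2 h2
  have ea : a * a = n + 1 := Real.mul_self_sqrt h1.le
  have eb : b * b = n + 2 := Real.mul_self_sqrt h2.le
  have hab : a ≤ b := Real.sqrt_le_sqrt (by linarith)
  have e0 : ((n : ℝ) + 2) * b = b * b * b := by rw [eb]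
  rw [e0]
  have e1 : 2 * (1 / a - 1 / b) = 2 * (b - a) / (a * b) := by
    field_simp
  rw [e1, div_le_div_iff₀ (by positivity) (by positivity)]
  have e2 : (b - a) * (b + a) = 1 := by nlinarith
  have e3 : 0 ≤ b - a := by linarith
  -- 1 * (a*b) ≤ 2 (b-a) b^3
  have e4 : 1 ≤ 2 * (b - a) * b := by nlinarith
  have e5 : a * b ≤ b * b := by nlinarith
  calc 1 * (a * b) ≤ 1 * (b * b) := by linarith
    _ ≤ (2 * (b - a) * b) * (b * b) := mul_le_mul_of_nonneg_right e4 (by positivity)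
    _ = 2 * (b - a) * (b * b * b) := by ring

/-- upper part -/
lemma row_high (m N : ℕ) : ∑ n ∈ Ico (m + 1) N, KK m n ≤ 2 * Real.exp 1 := by
  have hm : (0 : ℝ) < m + 1 := by positivity
  have h1 : ∀ n ∈ Ico (m + 1) N, KK m n ≤ 2 * Real.exp 1 * Real.sqrt (m + 1) *
      (1 / Real.sqrt (n : ℝ) - 1 / Real.sqrt ((n : ℝ) + 1)) := by
    intro n hn
    have hnm : m + 1 ≤ n := (mem_Ico.1 hn).1
    obtain ⟨k, rfl⟩ : ∃ k, n = k + 1 := ⟨n - 1, by omega⟩
    rw [KK_symm]
    refine (KK_le (k + 1) m (by omega)).trans ?_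
    have ht := tele k
    have hsm : 0 < Real.sqrt ((m : ℝ) + 1) := Real.sqrt_pos.2 hm
    have em : Real.sqrt ((m : ℝ) + 1) * Real.sqrt ((m : ℝ) + 1) = m + 1 :=
      Real.mul_self_sqrt hm.le
    have hk : ((k + 1 : ℕ) : ℝ) + 1 = (k : ℝ) + 2 := by push_cast; ring
    have hk' : ((k + 1 : ℕ) : ℝ) = (k : ℝ) + 1 := by push_cast; ring
    rw [hk, hk']
    have hk2 : (0 : ℝ) < k + 2 := by positivity
    have hsk : 0 < Real.sqrt ((k : ℝ) + 2) := Real.sqrt_pos.2 hk2
    have e0 : ∀ E s q M K : ℝ, 0 < s → 0 < q → 0 < K → s * s = M →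
        E * (M / K) / (q * s) = E * s * (1 / (K * q)) := by
      intro E s q M K hs hq hK h
      rw [← h]
      field_simp
    have e1 : Real.exp 1 * (((m : ℝ) + 1) / (k + 2)) /
        (Real.sqrt (k + 2) * Real.sqrt (m + 1)) =
        Real.exp 1 * Real.sqrt (m + 1) * (1 / (((k : ℝ) + 2) * Real.sqrt ((k : ℝ) + 2))) :=
      e0 _ _ _ _ _ hsm hsk hk2 em
    rw [e1]
    have h3 := mul_le_mul_of_nonneg_left ht
      (by positivity : 0 ≤ Real.exp 1 * Real.sqrt ((m : ℝ) + 1))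
    refine h3.trans (le_of_eq ?_)
    ring
  refine (Finset.sum_le_sum h1).trans ?_
  rw [← Finset.mul_sum]
  by_cases hN : m + 1 ≤ N
  · have h2 : ∑ n ∈ Ico (m + 1) N, (1 / Real.sqrt (n : ℝ) - 1 / Real.sqrt ((n : ℝ) + 1)) =
        1 / Real.sqrt ((m + 1 : ℕ) : ℝ) - 1 / Real.sqrt (N : ℝ) := by
      have h3 := Finset.sum_Ico_sub (f := fun n : ℕ => -(1 / Real.sqrt (n : ℝ))) (m := m + 1)
        (n := N) hN
      have h4 : ∀ n : ℕ, (1 / Real.sqrt (n : ℝ) - 1 / Real.sqrt ((n : ℝ) + 1)) =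
          -(1 / Real.sqrt ((n + 1 : ℕ) : ℝ)) - -(1 / Real.sqrt (n : ℝ)) := by
        intro n; push_cast; ring
      simp_rw [h4]
      rw [h3]; ring
    rw [h2]
    push_cast
    have hsm : 0 < Real.sqrt ((m : ℝ) + 1) := Real.sqrt_pos.2 hm
    have h5 : 0 ≤ 1 / Real.sqrt (N : ℝ) := by positivity
    calc 2 * Real.exp 1 * Real.sqrt (m + 1) * (1 / Real.sqrt ((m : ℝ) + 1) - 1 / Real.sqrt N)
        ≤ 2 * Real.exp 1 * Real.sqrt (m + 1) * (1 / Real.sqrt ((m : ℝ) + 1)) := by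
          apply mul_le_mul_of_nonneg_left _ (by positivity)
          linarith
      _ = 2 * Real.exp 1 := by field_simp
  · rw [Finset.Ico_eq_empty (by omega)]
    simp
    positivity

lemma KK_nonneg (m n : ℕ) : 0 ≤ KK m n := by unfold KK; positivity

lemma row (m : ℕ) (S : Finset ℕ) : ∑ n ∈ S, KK m n ≤ 3 * Real.exp 1 := by
  obtain ⟨N, hN⟩ : ∃ N : ℕ, S ⊆ range N := by
    obtain ⟨N, hN⟩ := S.bddAbove
    refine ⟨N + 1, fun n hn => ?_⟩
    rw [mem_range]
    have := hN hn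
    omega
  have h1 : ∑ n ∈ S, KK m n ≤ ∑ n ∈ range (m + 1) ∪ Ico (m + 1) N, KK m n := by
    apply Finset.sum_le_sum_of_subset_of_nonneg
    · intro n hn
      have := mem_range.1 (hN hn)
      rw [mem_union, mem_range, mem_Ico]
      omega
    · intro n _ _; exact KK_nonneg m n
  refine h1.trans ?_
  rw [Finset.sum_union]
  · have := row_low m
    have := row_high m N
    linarith
  · rw [Finset.disjoint_left]
    intro n h2 h3
    rw [mem_range] at h2
    rw [mem_Ico] at h3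
    omega

lemma schur (S : Finset ℕ) (b : ℕ → ℝ) :
    ∑ m ∈ S, ∑ n ∈ S, b m * b n * KK m n ≤ 3 * Real.exp 1 * ∑ m ∈ S, b m ^ 2 := by
  have h1 : ∀ m n, b m * b n * KK m n ≤ b m ^ 2 / 2 * KK m n + b n ^ 2 / 2 * KK n m := by
    intro m n
    rw [KK_symm n m, ← add_mul]
    apply mul_le_mul_of_nonneg_right _ (KK_nonneg m n)
    nlinarith [sq_nonneg (b m - b n)]
  have h2 : ∑ m ∈ S, ∑ n ∈ S, b m * b n * KK m n ≤
      ∑ m ∈ S, ∑ n ∈ S, (b m ^ 2 / 2 * KK m n + b n ^ 2 / 2 * KK n m) :=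
    Finset.sum_le_sum fun m _ => Finset.sum_le_sum fun n _ => h1 m n
  refine h2.trans ?_
  simp_rw [Finset.sum_add_distrib]
  have h3 : ∑ m ∈ S, ∑ n ∈ S, b n ^ 2 / 2 * KK n m = ∑ m ∈ S, ∑ n ∈ S, b m ^ 2 / 2 * KK m n := by
    rw [Finset.sum_comm]
  rw [h3]
  have h4 : ∑ m ∈ S, ∑ n ∈ S, b m ^ 2 / 2 * KK m n ≤ ∑ m ∈ S, b m ^ 2 / 2 * (3 * Real.exp 1) := by
    refine Finset.sum_le_sum fun m _ => ?_
    rw [← Finset.mul_sum]
    exact mul_le_mul_of_nonneg_left (row m S) (by positivity)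
  have h5 : ∑ m ∈ S, b m ^ 2 / 2 * (3 * Real.exp 1) = 3 * Real.exp 1 * (∑ m ∈ S, b m ^ 2) / 2 := by
    rw [← Finset.sum_mul, ← Finset.sum_div]
    ring
  rw [h5] at h4
  linarith

lemma gauss_fourier (u : ℝ) :
    ∫ t : ℝ, Complex.exp (-(t * u : ℝ) * Complex.I) * Complex.exp (-(t : ℂ) ^ 2) =
      ((Real.sqrt Real.pi * Real.exp (-u ^ 2 / 4) : ℝ) : ℂ) := by
  have h := fourierIntegral_gaussian (b := 1) (by simp) (-(u : ℂ))
  have e1 : ∀ t : ℝ, Complex.exp (-(t * u : ℝ) * Complex.I) * Complex.exp (-(t : ℂ) ^ 2) =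
      Complex.exp (Complex.I * -(u : ℂ) * t) * Complex.exp (-1 * (t : ℂ) ^ 2) := by
    intro t
    congr 2
    · push_cast; ring
    · ring
  simp_rw [e1]
  rw [h]
  push_cast
  congr 1
  · rw [div_one, Real.sqrt_eq_rpow, Complex.ofReal_cpow Real.pi_pos.le]
    norm_num
  · congr 1
    ring

lemma integrable_term (u : ℝ) :
    Integrable (fun t : ℝ => Complex.exp (-(t * u : ℝ) * Complex.I) *
      Complex.exp (-(t : ℂ) ^ 2)) := by
  have h := integrable_exp_neg_mul_sq (b := 1) one_pos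
  refine h.mono' (by fun_prop) (Filter.Eventually.of_forall fun t => ?_)
  rw [norm_mul, Complex.norm_exp, Complex.norm_exp]
  simp [← Complex.ofReal_pow]

theorem sl2 : SL2 := by
  refine ⟨Real.exp 1 * (Real.sqrt Real.pi * (3 * Real.exp 1)), by positivity, fun c => ?_⟩
  rw [parseval]
  set S := c.support with hS
  let A : ℕ → ℂ := fun m => c m * (((Real.sqrt (m + 1))⁻¹ : ℝ) : ℂ)
  let E : ℕ → ℝ → ℂ := fun m t => Complex.exp (-(t * Real.log (m + 1) : ℝ) * Complex.I)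
  have hf : ∀ t : ℝ, poly c (vs (pt 0 0 t)) = ∑ m ∈ S, A m * E m t := by
    intro t
    rw [poly_vs]
    refine Finset.sum_congr rfl fun m _ => ?_
    simp only [A, E]
    rw [mul_assoc]
    congr 1
    have hm : (0 : ℝ) < m + 1 := by positivity
    have hm' : ((m : ℂ) + 1) ≠ 0 := by
      exact_mod_cast Nat.succ_ne_zero m
    have e1 : -pt 0 0 t = (((-(1 / 2) : ℝ)) : ℂ) + -(t : ℂ) * Complex.I := by
      unfold pt; push_cast; ring
    rw [e1, Complex.cpow_add _ _ hm']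
    congr 1
    · have e2 : ((m : ℂ) + 1) = (((m : ℝ) + 1 : ℝ) : ℂ) := by push_cast; ring
      rw [e2, ← Complex.ofReal_cpow hm.le, Real.rpow_neg hm.le, Real.sqrt_eq_rpow]
    · rw [Complex.cpow_def_of_ne_zero hm']
      congr 1
      have e2 : ((m : ℂ) + 1) = (((m : ℝ) + 1 : ℝ) : ℂ) := by push_cast; ring
      rw [e2, ← Complex.ofReal_log hm.le]
      push_cast; ring
  have hE : ∀ m n : ℕ, ∀ t : ℝ, E m t * conj (E n t) =
      Complex.exp (-(t * (Real.log (m + 1) - Real.log (n + 1)) : ℝ) * Complex.I) := by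
    intro m n t
    simp only [E]
    rw [← Complex.exp_conj, ← Complex.exp_add]
    congr 1
    simp only [map_mul, map_neg, Complex.conj_ofReal, Complex.conj_I]
    push_cast; ring
  have hsq : ∀ t : ℝ, ((‖poly c (vs (pt 0 0 t))‖ ^ 2 * Real.exp (-t ^ 2) : ℝ) : ℂ) =
      ∑ m ∈ S, ∑ n ∈ S, (A m * conj (A n)) *
        (Complex.exp (-(t * (Real.log (m + 1) - Real.log (n + 1)) : ℝ) * Complex.I) *
          Complex.exp (-(t : ℂ) ^ 2)) := by
    intro t
    have h0 : ((‖poly c (vs (pt 0 0 t))‖ ^ 2 : ℝ) : ℂ) =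
        poly c (vs (pt 0 0 t)) * conj (poly c (vs (pt 0 0 t))) := by
      rw [Complex.mul_conj, Complex.normSq_eq_norm_sq]
    rw [Complex.ofReal_mul, h0, hf t, map_sum, Finset.sum_mul_sum, Finset.sum_mul]
    refine Finset.sum_congr rfl fun m _ => ?_
    rw [Finset.sum_mul]
    refine Finset.sum_congr rfl fun n _ => ?_
    rw [← hE, map_mul]
    push_cast
    ring
  have hint : Integrable (fun t : ℝ => ‖poly c (vs (pt 0 0 t))‖ ^ 2 * Real.exp (-t ^ 2)) := by
    have h1 : Integrable (fun t : ℝ =>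
        ((‖poly c (vs (pt 0 0 t))‖ ^ 2 * Real.exp (-t ^ 2) : ℝ) : ℂ)) := by
      simp_rw [hsq]
      exact integrable_finsetSum _ fun m _ => integrable_finsetSum _ fun n _ =>
        (integrable_term _).const_mul _
    have h2 := h1.re
    simp only [RCLike.re_to_complex, Complex.ofReal_re] at h2
    exact h2
  have hval : ((∫ t : ℝ, ‖poly c (vs (pt 0 0 t))‖ ^ 2 * Real.exp (-t ^ 2) : ℝ) : ℂ) =
      ∑ m ∈ S, ∑ n ∈ S, (A m * conj (A n)) *
        ((Real.sqrt Real.pi * Real.exp (-(Real.log (m + 1) - Real.log (n + 1)) ^ 2 / 4) : ℝ) :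
          ℂ) := by
    rw [← integral_complex_ofReal]
    simp_rw [hsq]
    rw [integral_finsetSum _ fun m _ => integrable_finsetSum _ fun n _ =>
        (integrable_term _).const_mul _]
    refine Finset.sum_congr rfl fun m _ => ?_
    rw [integral_finsetSum _ fun n _ => (integrable_term _).const_mul _]
    refine Finset.sum_congr rfl fun n _ => ?_
    rw [integral_const_mul, gauss_fourier]
  have hbd : ∫ t : ℝ, ‖poly c (vs (pt 0 0 t))‖ ^ 2 * Real.exp (-t ^ 2) ≤
      Real.sqrt Real.pi * (3 * Real.exp 1) * ∑ m ∈ S, ‖c m‖ ^ 2 := by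
    have h1 : ∫ t : ℝ, ‖poly c (vs (pt 0 0 t))‖ ^ 2 * Real.exp (-t ^ 2) ≤
        ‖((∫ t : ℝ, ‖poly c (vs (pt 0 0 t))‖ ^ 2 * Real.exp (-t ^ 2) : ℝ) : ℂ)‖ := by
      rw [Complex.norm_real]; exact le_abs_self _
    refine h1.trans ?_
    rw [hval]
    have h2 := schur S (fun m => ‖c m‖)
    have h3 : ‖∑ m ∈ S, ∑ n ∈ S, (A m * conj (A n)) *
        ((Real.sqrt Real.pi * Real.exp (-(Real.log (m + 1) - Real.log (n + 1)) ^ 2 / 4) : ℝ) :
          ℂ)‖ ≤ ∑ m ∈ S, ∑ n ∈ S, Real.sqrt Real.pi * (‖c m‖ * ‖c n‖ * KK m n) := by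
      refine (norm_sum_le _ _).trans (Finset.sum_le_sum fun m _ => ?_)
      refine (norm_sum_le _ _).trans (Finset.sum_le_sum fun n _ => ?_)
      rw [norm_mul, norm_mul, RCLike.norm_conj, Complex.norm_real]
      simp only [A]
      rw [norm_mul, norm_mul, Complex.norm_real, Complex.norm_real]
      rw [Real.norm_of_nonneg (by positivity), Real.norm_of_nonneg (by positivity),
        Real.norm_of_nonneg (by positivity)]
      apply le_of_eq
      unfold KK
      rw [div_eq_mul_inv _ (Real.sqrt ((m : ℝ) + 1) * Real.sqrt ((n : ℝ) + 1)), mul_inv]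
      ring
    refine h3.trans ?_
    simp_rw [← Finset.mul_sum]
    rw [mul_assoc]
    exact mul_le_mul_of_nonneg_left h2 (Real.sqrt_nonneg _)
  have hcmp : ∫ t in (0 : ℝ)..1, ‖poly c (vs (pt 0 0 t))‖ ^ 2 ≤
      Real.exp 1 * ∫ t : ℝ, ‖poly c (vs (pt 0 0 t))‖ ^ 2 * Real.exp (-t ^ 2) := by
    rw [intervalIntegral.integral_of_le zero_le_one]
    have h1 : ∫ t in Set.Ioc (0 : ℝ) 1, ‖poly c (vs (pt 0 0 t))‖ ^ 2 ≤
        ∫ t in Set.Ioc (0 : ℝ) 1,
          Real.exp 1 * (‖poly c (vs (pt 0 0 t))‖ ^ 2 * Real.exp (-t ^ 2)) := by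
      apply integral_mono_of_nonneg
      · exact Filter.Eventually.of_forall fun t => by positivity
      · exact (hint.const_mul _).integrableOn
      · refine (ae_restrict_mem measurableSet_Ioc).mono fun t ht => ?_
        have h2 : 1 ≤ Real.exp 1 * Real.exp (-t ^ 2) := by
          rw [← Real.exp_add]
          apply Real.one_le_exp
          nlinarith [ht.1, ht.2]
        have h3 : 0 ≤ ‖poly c (vs (pt 0 0 t))‖ ^ 2 := by positivity
        simp only
        nlinarith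
    refine h1.trans ?_
    rw [← integral_const_mul]
    apply setIntegral_le_integral (hint.const_mul _)
    exact Filter.Eventually.of_forall fun t => by
      simp only [Pi.zero_apply]
      positivity
  calc ∫ t in (0 : ℝ)..1, ‖poly c (vs (pt 0 0 t))‖ ^ 2
      ≤ Real.exp 1 * ∫ t : ℝ, ‖poly c (vs (pt 0 0 t))‖ ^ 2 * Real.exp (-t ^ 2) := hcmp
    _ ≤ Real.exp 1 * (Real.sqrt Real.pi * (3 * Real.exp 1) * ∑ m ∈ S, ‖c m‖ ^ 2) :=
        mul_le_mul_of_nonneg_left hbd (Real.exp_pos 1).le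
    _ = Real.exp 1 * (Real.sqrt Real.pi * (3 * Real.exp 1)) * ∑ m ∈ S, ‖c m‖ ^ 2 := by ring

end Pool.Agent.W698.EM
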